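import Pool.Agent.Lib.helper7.Perron

namespace Pool.Agent.Results.MP_d5c33c_co.Bound

open Finset Matrix

/-- the normalised structure constants -/
noncomputable def nab {S : Type} (k : S → ℕ) (p : S → S → S → ℕ) (c a b : S) : ℝ :=
  Real.sqrt ((k c : ℝ) / (k a * k b)) * p c a b

lemma fib {X S : Type} [Fintype X] [Fintype S] [DecidableEq S] (g : X → S) (F : S → ℝ) :
    ∑ y, F (g y) = ∑ a, ((univ.filter fun y => g y = a).card : ℝ) * F a := by
  rw [← Finset.sum_fiberwise univ g]
  refine Finset.sum_congr rfl fun a _ => ?_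
  rw [Finset.sum_congr rfl fun y hy => by rw [(Finset.mem_filter.1 hy).2]]
  simp

lemma core {X : Type} [Fintype X] [DecidableEq X] (hn : 2 ≤ Fintype.card X) (f : X → ℝ)
    (h : X → X → ℝ) (h1 : ∀ z, h z z = f z) (h2 : ∀ z, ∑ y, h z y = ∑ y, f y) :
    (Fintype.card X : ℝ) / (Fintype.card X - 1) * ∑ y, f y ^ 2 ≤ ∑ z, ∑ y, h z y ^ 2 := by
  have hn' : (2 : ℝ) ≤ Fintype.card X := by exact_mod_cast hn
  set n : ℝ := (Fintype.card X : ℝ) with hnd
  set s := ∑ y, f y with hs
  have key : ∀ z, f z ^ 2 + (s - f z) ^ 2 / (n - 1) ≤ ∑ y, h z y ^ 2 := by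
    intro z
    have e1 := h2 z
    rw [← Finset.add_sum_erase _ _ (mem_univ z), h1] at e1 ⊢
    have cs := sq_sum_le_card_mul_sum_sq (s := univ.erase z) (f := h z)
    rw [Finset.card_erase_of_mem (mem_univ z), Finset.card_univ, Nat.cast_sub (by omega),
      Nat.cast_one, ← hnd, show ∑ y ∈ univ.erase z, h z y = s - f z by linarith] at cs
    have : (s - f z) ^ 2 / (n - 1) ≤ ∑ y ∈ univ.erase z, h z y ^ 2 := by
      rw [div_le_iff₀ (by linarith)]; linarith
    linarith
  refine le_trans ?_ (Finset.sum_le_sum fun z _ => key z)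
  have e : ∑ z, (s - f z) ^ 2 = n * s ^ 2 - 2 * s * s + ∑ z, f z ^ 2 := by
    simp only [sub_sq, Finset.sum_add_distrib, Finset.sum_sub_distrib, ← Finset.mul_sum,
      Finset.sum_const, Finset.card_univ, nsmul_eq_mul, ← hs, ← hnd]
  rw [Finset.sum_add_distrib, ← Finset.sum_div, e, div_mul_eq_mul_div, div_le_iff₀ (by linarith),
    add_mul, div_mul_cancel₀ _ (by linarith)]
  nlinarith [sq_nonneg s]

theorem result {X S : Type} [Fintype X] [DecidableEq X] [Fintype S] [DecidableEq S]
    (c : X → X → S) (hsurj : ∀ a, ∃ x y, c x y = a)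
    (hdiag : ∀ x y z, c x x = c y z → y = z)
    (htr : ∀ x y x' y', c x y = c x' y' → c y x = c y' x')
    (p : S → S → S → ℕ)
    (hp : ∀ x y a b, (univ.filter fun z => c x z = a ∧ c z y = b).card = p (c x y) a b)
    (k : S → ℕ) (hk : ∀ x y, (univ.filter fun y' => c x y' = c x y).card = k (c x y))
    (hn : 2 ≤ Fintype.card X) (l : ℝ)
    (hl : l ∈ spectrum ℝ (Matrix.of fun a b : S => ∑ q, ∑ r, nab k p a q r * nab k p b q r)) :
    (Fintype.card X : ℝ) / (Fintype.card X - 1) ≤ l := by
  obtain ⟨v, hv, he⟩ := Pool.Agent.Lib.helper7.Perron.exists_eigvec hl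
  have kpos : ∀ a, (0 : ℝ) < k a := by
    intro a
    obtain ⟨x, y, rfl⟩ := hsurj a
    rw [← hk]
    exact_mod_cast Finset.card_pos.2 ⟨y, by simp⟩
  have src : ∀ u y u' y', c u y = c u' y' → c u u = c u' u' := by
    intro u y u' y' h
    have h1 : 0 < p (c u y) (c u u) (c u y) := by
      rw [← hp]; exact Finset.card_pos.2 ⟨u, by simp⟩
    rw [h, ← hp] at h1
    obtain ⟨z, hz⟩ := Finset.card_pos.1 h1
    have hz' := (Finset.mem_filter.1 hz).2.1
    rw [← hz', ← hdiag u u' z hz'.symm]
  have out : ∀ u y u', c u u = c u' u' → ∃ y', c u' y' = c u y := by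
    intro u y u' h
    have h1 : 0 < p (c u u) (c u y) (c y u) := by
      rw [← hp]; exact Finset.card_pos.2 ⟨y, by simp⟩
    rw [h, ← hp] at h1
    obtain ⟨z, hz⟩ := Finset.card_pos.1 h1
    exact ⟨z, (Finset.mem_filter.1 hz).2.1⟩
  have cnt : ∀ u a, ((univ.filter fun y => c u y = a).card : ℝ) =
      if ∃ y, c u y = a then (k a : ℝ) else 0 := by
    intro u a
    split_ifs with h
    · obtain ⟨y, rfl⟩ := h; rw [hk]
    · rw [Finset.filter_false_of_mem fun y _ e => h ⟨y, e⟩]; simp
  let m : X → ℝ := fun u => (univ.filter fun u' => c u' u' = c u u).card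
  have mpos : ∀ u, 0 < m u := fun u => by
    simp only [m]; exact_mod_cast Finset.card_pos.2 ⟨u, by simp⟩
  have tot : ∀ F : S → ℝ, ∑ a, F a = ∑ u, (m u)⁻¹ * ∑ y, F (c u y) / k (c u y) := by
    intro F
    simp only [fib (c _) fun a => F a / k a, cnt, Finset.mul_sum]
    rw [Finset.sum_comm]
    refine Finset.sum_congr rfl fun a _ => ?_
    obtain ⟨x, y, rfl⟩ := hsurj a
    have : ∀ u, (m u)⁻¹ * ((if ∃ y', c u y' = c x y then (k (c x y) : ℝ) else 0) *
        (F (c x y) / k (c x y))) = if c u u = c x x then (m x)⁻¹ * F (c x y) else 0 := by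
      intro u
      by_cases e : c u u = c x x
      · rw [if_pos e, if_pos (out x y u e.symm), mul_div_cancel₀ _ (kpos _).ne']
        simp only [m, e]
      · rw [if_neg e, if_neg fun ⟨y', h⟩ => e (src _ _ _ _ h)]; simp
    simp only [this]
    rw [← Finset.sum_filter, Finset.sum_const, nsmul_eq_mul]
    exact (mul_inv_cancel_left₀ (mpos x).ne' _).symm
  let x : S → ℝ := fun a => v a / Real.sqrt (k a)
  let g : X → X → S → ℝ := fun u z q => ∑ y, if c z y = q then x (c u y) else 0
  have gc : ∀ u z z' q, c u z = c u z' → g u z q = g u z' q := by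
    intro u z z' q h
    obtain ⟨s, t, rfl⟩ := hsurj q
    have : ∀ w, g u w (c s t) = ∑ a, (p (c u w) a (c t s) : ℝ) * x a := by
      intro w
      simp only [g, ← hp, Finset.card_filter, Nat.cast_sum, Finset.sum_mul]
      rw [Finset.sum_comm]
      refine Finset.sum_congr rfl fun y _ => ?_
      rw [Finset.sum_eq_single (c u y) (fun a _ ha => by simp [Ne.symm ha]) (by simp)]
      by_cases e : c w y = c s t
      · simp [e, htr _ _ _ _ e]
      · have : c y w ≠ c t s := fun h => e (htr _ _ _ _ h)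
        simp [e, this]
    rw [this, this, h]
  let w : S → S → ℝ := fun q r => ∑ a, v a * nab k p a q r
  have wg : ∀ u z r, w (c u z) r ^ 2 / k (c u z) = g u z r ^ 2 / k r := by
    intro u z r
    have e1 : ∑ y, x (c u y) * p (c u y) (c u z) r = k (c u z) * g u z r := by
      rw [← hk, ← nsmul_eq_mul, ← Finset.sum_const,
        Finset.sum_congr rfl fun z' hz' => gc u z z' r (Finset.mem_filter.1 hz').2.symm]
      simp only [g, ← hp, Finset.card_filter, Nat.cast_sum, Finset.mul_sum, Finset.sum_filter]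
      rw [Finset.sum_comm]
      refine Finset.sum_congr rfl fun z' _ => ?_
      by_cases e : c u z' = c u z <;> simp [e]
    have e2 : w (c u z) r * (Real.sqrt (k (c u z)) * Real.sqrt (k r)) = k (c u z) * g u z r := by
      rw [← e1, fib (c u) fun a => x a * p a (c u z) r]
      simp only [w, Finset.sum_mul, cnt]
      refine Finset.sum_congr rfl fun a _ => ?_
      have s1 := Real.sqrt_pos.2 (kpos a)
      have s2 := Real.sqrt_pos.2 (kpos (c u z))
      have s3 := Real.sqrt_pos.2 (kpos r)
      split_ifs with h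
      · simp only [nab, x]
        rw [Real.sqrt_div (kpos a).le, Real.sqrt_mul (kpos _).le]
        nth_rewrite 2 [← Real.mul_self_sqrt (kpos a).le]
        field_simp
      · have : p a (c u z) r = 0 := by
          obtain ⟨s, t, rfl⟩ := hsurj a
          rw [← hp, Finset.card_eq_zero, Finset.filter_eq_empty_iff]
          rintro z' - ⟨h1, -⟩
          exact h (out s t u (src _ _ _ _ h1))
        simp [nab, this]
    have e3 := congrArg (· ^ 2) e2
    simp only [mul_pow, Real.sq_sqrt (kpos _).le] at e3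
    have := kpos (c u z)
    have := kpos r
    field_simp
    have h4 : (k (c u z) : ℝ) * (w (c u z) r ^ 2 * k r) =
        k (c u z) * (k (c u z) * g u z r ^ 2) := by linarith
    exact mul_left_cancel₀ (kpos _).ne' h4
  have eig : l * ∑ a, v a ^ 2 = ∑ q, ∑ r, w q r ^ 2 := by
    have := congrArg (fun t => v ⬝ᵥ t) he
    simp only [dotProduct_smul, smul_eq_mul] at this
    simp only [dotProduct, ← pow_two] at this
    rw [← this]
    simp only [Matrix.mulVec, dotProduct, Matrix.of_apply, w, pow_two, Finset.mul_sum,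
      Finset.sum_mul]
    conv_rhs => enter [2, q]; rw [Finset.sum_comm]
    conv_rhs => enter [2, q, 2, a]; rw [Finset.sum_comm]
    conv_rhs => rw [Finset.sum_comm]
    conv_rhs => enter [2, a]; rw [Finset.sum_comm]
    rw [Finset.sum_comm]
    refine Finset.sum_congr rfl fun a _ => Finset.sum_congr rfl fun b _ =>
      Finset.sum_congr rfl fun q _ => Finset.sum_congr rfl fun r _ => by ring
  have vpos : 0 < ∑ a, v a ^ 2 := by
    obtain ⟨a, ha⟩ := Function.ne_iff.1 hv
    exact Finset.sum_pos' (fun _ _ => sq_nonneg _) ⟨a, mem_univ a, sq_pos_of_ne_zero ha⟩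
  refine le_of_mul_le_mul_right ?_ vpos
  rw [eig, tot fun a => v a ^ 2, tot fun q => ∑ r, w q r ^ 2, Finset.mul_sum]
  refine Finset.sum_le_sum fun u _ => ?_
  rw [mul_left_comm]
  refine mul_le_mul_of_nonneg_left ?_ (inv_pos.2 (mpos u)).le
  have gz : ∀ z r, (¬ ∃ y, c z y = r) → g u z r = 0 := fun z r h =>
    Finset.sum_eq_zero fun y _ => if_neg fun e => h ⟨y, e⟩
  have := core hn (fun y => x (c u y)) (fun z y => g u z (c z y) / k (c z y)) ?_ ?_
  · refine le_of_eq_of_le ?_ (this.trans_eq (Finset.sum_congr rfl fun z _ => Eq.symm ?_))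
    · simp only [x, div_pow, Real.sq_sqrt (kpos _).le]
    · rw [Finset.sum_div, fib (c z) fun r => (g u z r / k r) ^ 2]
      refine Finset.sum_congr rfl fun r _ => ?_
      rw [wg, cnt]
      have := kpos r
      split_ifs with h
      · field_simp
      · simp [gz z r h]
  · intro z
    have e : (univ.filter fun y => c z y = c z z) = {z} := by
      ext y
      simp only [Finset.mem_filter, mem_univ, true_and, Finset.mem_singleton]
      exact ⟨fun h => (hdiag z z y h.symm).symm, fun h => by rw [h]⟩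
    simp only [g]
    rw [← hk, ← Finset.sum_filter, e]
    simp
  · intro z
    rw [fib (c z) fun r => g u z r / k r]
    have : ∑ y, x (c u y) = ∑ r, g u z r := by
      simp only [g]
      rw [Finset.sum_comm]
      simp
    rw [this]
    refine Finset.sum_congr rfl fun r _ => ?_
    rw [cnt]
    have := kpos r
    split_ifs with h
    · field_simp
    · simp [gz z r h]

end Pool.Agent.Results.MP_d5c33c_co.Bound
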